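import Mathlib

/-!
# Removable edges preserving `(k-1)`-connectivity: definitions
-/

namespace Pool.Agent.H383Mader

/-- `G` is `k`-connected: it has at least `k + 1` vertices and deleting fewer than `k` vertices
always leaves a connected graph. -/
def KConn {n : ℕ} (G : SimpleGraph (Fin n)) (k : ℕ) : Prop :=
  k + 1 ≤ n ∧ ∀ S : Finset (Fin n), S.card < k → (G.induce {v | v ∉ S}).Connected

/-- The same condition through pairs of separated sets (auxiliary). -/
def CutConn {n : ℕ} (G : SimpleGraph (Fin n)) (k : ℕ) : Prop :=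
  ∀ X Y : Finset (Fin n), X.Nonempty → Y.Nonempty → Disjoint X Y →
    (∀ x ∈ X, ∀ y ∈ Y, ¬ G.Adj x y) → k ≤ ((X ∪ Y)ᶜ).card

/-- `r(G)`: the largest size of a set `F` of edges of `G` such that `G - F` is
`(k-1)`-connected. -/
noncomputable def removable {n : ℕ} (G : SimpleGraph (Fin n)) (k : ℕ) : ℕ :=
  sSup {m : ℕ | ∃ F : Finset (Sym2 (Fin n)), (F : Set (Sym2 (Fin n))) ⊆ G.edgeSet ∧
    KConn (G.deleteEdges (F : Set (Sym2 (Fin n)))) (k - 1) ∧ F.card = m}

/-- `f(n,k)`: the minimum of `r(G)` over all `k`-connected graphs `G` of order `n`. -/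
noncomputable def fMin (n k : ℕ) : ℕ :=
  sInf {m : ℕ | ∃ G : SimpleGraph (Fin n), KConn G k ∧ removable G k = m}

end Pool.Agent.H383Mader
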