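import Mathlib
import Pool.Agent.H383Mader.Defs

namespace Pool.Agent.H383Mader
section
open Finset
theorem kconn_iff {n : ℕ} (G : SimpleGraph (Fin n)) (k : ℕ) :
    KConn G k ↔ k + 1 ≤ n ∧ CutConn G k := by
  classical
  constructor
  · rintro ⟨h1, h2⟩
    refine ⟨h1, ?_⟩
    intro X Y hX hY hd hno
    by_contra hlt
    have hlt' : ((X ∪ Y)ᶜ).card < k := not_le.1 hlt
    have hconn := h2 _ hlt'
    obtain ⟨x, hx⟩ := hX
    obtain ⟨y, hy⟩ := hY
    have hxS : x ∉ (X ∪ Y)ᶜ := by
      rw [Finset.mem_compl, not_not]; exact Finset.mem_union_left _ hx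
    have hyS : y ∉ (X ∪ Y)ᶜ := by
      rw [Finset.mem_compl, not_not]; exact Finset.mem_union_right _ hy
    have key : ∀ a b : {v | v ∉ (X ∪ Y)ᶜ},
        (G.induce {v | v ∉ (X ∪ Y)ᶜ}).Reachable a b → a.1 ∈ X → b.1 ∈ X := by
      intro a b hab
      obtain ⟨p⟩ := hab
      induction p with
      | nil => exact fun h => h
      | @cons u v w hadj p ih =>
        intro hu
        apply ih
        have hadj' : G.Adj u.1 v.1 := hadj
        have hv : v.1 ∈ X ∪ Y := by
          have := v.2
          simp only [Set.mem_setOf_eq, Finset.mem_compl, not_not] at this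
          exact this
        rcases Finset.mem_union.1 hv with h | h
        · exact h
        · exact absurd hadj' (hno _ hu _ h)
    have := key ⟨x, hxS⟩ ⟨y, hyS⟩ (hconn.preconnected _ _) hx
    exact (Finset.disjoint_left.1 hd) this hy
  · rintro ⟨h1, h2⟩
    refine ⟨h1, ?_⟩
    intro S hS
    have hex : ∃ v : Fin n, v ∉ S := by
      by_contra hcon
      push Not at hcon
      have : S = Finset.univ := Finset.eq_univ_of_forall hcon
      rw [this, Finset.card_univ, Fintype.card_fin] at hS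
      omega
    have hpre : (G.induce {v | v ∉ S}).Preconnected := by
      intro a b
      by_contra hab
      let X : Finset (Fin n) := Finset.univ.filter
        (fun v => ∃ h : v ∉ S, (G.induce {v | v ∉ S}).Reachable a ⟨v, h⟩)
      let Y : Finset (Fin n) := Finset.univ.filter
        (fun v => ∃ h : v ∉ S, ¬ (G.induce {v | v ∉ S}).Reachable a ⟨v, h⟩)
      have hX : X.Nonempty := ⟨a.1, by
        simp only [X, Finset.mem_filter, Finset.mem_univ, true_and]
        exact ⟨a.2, SimpleGraph.Reachable.refl _⟩⟩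
      have hY : Y.Nonempty := ⟨b.1, by
        simp only [Y, Finset.mem_filter, Finset.mem_univ, true_and]
        exact ⟨b.2, hab⟩⟩
      have hd : Disjoint X Y := by
        rw [Finset.disjoint_left]
        intro v hv hv'
        simp only [X, Finset.mem_filter, Finset.mem_univ, true_and] at hv
        simp only [Y, Finset.mem_filter, Finset.mem_univ, true_and] at hv'
        obtain ⟨_, h3⟩ := hv
        obtain ⟨_, h4⟩ := hv'
        exact h4 h3
      have hno : ∀ x ∈ X, ∀ y ∈ Y, ¬ G.Adj x y := by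
        intro x hx y hy hadj
        simp only [X, Finset.mem_filter, Finset.mem_univ, true_and] at hx
        simp only [Y, Finset.mem_filter, Finset.mem_univ, true_and] at hy
        obtain ⟨h3, h3'⟩ := hx
        obtain ⟨h4, h4'⟩ := hy
        apply h4'
        refine h3'.trans ?_
        have : (G.induce {v | v ∉ S}).Adj ⟨x, h3⟩ ⟨y, h4⟩ := hadj
        exact this.reachable
      have hk := h2 X Y hX hY hd hno
      have hsub : (X ∪ Y)ᶜ ⊆ S := by
        intro v hv
        by_contra hvS
        rw [Finset.mem_compl] at hv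
        apply hv
        by_cases hr : (G.induce {v | v ∉ S}).Reachable a ⟨v, hvS⟩
        · apply Finset.mem_union_left
          simp only [X, Finset.mem_filter, Finset.mem_univ, true_and]
          exact ⟨hvS, hr⟩
        · apply Finset.mem_union_right
          simp only [Y, Finset.mem_filter, Finset.mem_univ, true_and]
          exact ⟨hvS, hr⟩
      have := Finset.card_le_card hsub
      omega
    obtain ⟨v, hv⟩ := hex
    haveI : Nonempty {v | v ∉ S} := ⟨⟨v, hv⟩⟩
    exact ⟨hpre⟩
end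
end Pool.Agent.H383Mader

namespace Pool.Agent.H383Mader
section
open Finset
theorem crit_sep_aux {n : ℕ} (H : SimpleGraph (Fin n)) (κ : ℕ) (hκ : 1 ≤ κ) (hn : κ + 1 ≤ n)
    (hc : CutConn H κ) (x y : Fin n) (X Y : Finset (Fin n)) (hx : x ∈ X) (hy : y ∈ Y)
    (hd : Disjoint X Y) (hno : ∀ a ∈ X, ∀ b ∈ Y, H.Adj a b → a = x ∧ b = y)
    (hlt : ((X ∪ Y)ᶜ).card < κ) :
    ∃ X S Y : Finset (Fin n), x ∈ X ∧ y ∈ Y ∧ Disjoint X S ∧ Disjoint X Y ∧ Disjoint S Y ∧
      X ∪ S ∪ Y = univ ∧ S.card + 1 = κ ∧ ∀ a ∈ X, ∀ b ∈ Y, H.Adj a b → a = x ∧ b = y := by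
  classical
  refine ⟨X, (X ∪ Y)ᶜ, Y, hx, hy, ?_, hd, ?_, ?_, ?_, hno⟩
  · rw [Finset.disjoint_left]; intro a ha h
    simp only [mem_compl, mem_union, not_or] at h; exact h.1 ha
  · rw [Finset.disjoint_left]; intro a h ha
    simp only [mem_compl, mem_union, not_or] at h; exact h.2 ha
  · ext a; simp only [mem_union, mem_compl, mem_univ, iff_true]; tauto
  · refine le_antisymm hlt ?_
    by_cases h1 : (X.erase x).Nonempty
    · have h2 := hc (X.erase x) Y h1 ⟨y, hy⟩ (hd.mono_left (Finset.erase_subset _ _))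
        (fun a ha b hb hab => (Finset.mem_erase.1 ha).1 (hno a (Finset.mem_of_mem_erase ha) b hb hab).1)
      refine h2.trans ?_
      have h3 : ((X.erase x ∪ Y)ᶜ) ⊆ insert x ((X ∪ Y)ᶜ) := by
        intro a ha
        simp only [mem_compl, mem_union, mem_erase, mem_insert, not_or, not_and] at ha ⊢
        by_cases hax : a = x
        · exact Or.inl hax
        · exact Or.inr ⟨ha.1 hax, ha.2⟩
      exact (Finset.card_le_card h3).trans (Finset.card_insert_le _ _)
    · by_cases h1' : (Y.erase y).Nonempty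
      · have h2 := hc X (Y.erase y) ⟨x, hx⟩ h1' (hd.mono_right (Finset.erase_subset _ _))
          (fun a ha b hb hab => (Finset.mem_erase.1 hb).1 (hno a ha b (Finset.mem_of_mem_erase hb) hab).2)
        refine h2.trans ?_
        have h3 : ((X ∪ Y.erase y)ᶜ) ⊆ insert y ((X ∪ Y)ᶜ) := by
          intro a ha
          simp only [mem_compl, mem_union, mem_erase, mem_insert, not_or, not_and] at ha ⊢
          by_cases hax : a = y
          · exact Or.inl hax
          · exact Or.inr ⟨ha.1, ha.2 hax⟩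
        exact (Finset.card_le_card h3).trans (Finset.card_insert_le _ _)
      · rw [Finset.not_nonempty_iff_eq_empty] at h1 h1'
        have hX : X ⊆ {x} := by
          intro a ha
          by_contra h
          have : a ∈ X.erase x := Finset.mem_erase.2 ⟨fun h' => h (by simp [h']), ha⟩
          rw [h1] at this; simp at this
        have hY : Y ⊆ {y} := by
          intro a ha
          by_contra h
          have : a ∈ Y.erase y := Finset.mem_erase.2 ⟨fun h' => h (by simp [h']), ha⟩
          rw [h1'] at this; simp at this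
        have hc2 : (X ∪ Y).card ≤ 2 := by
          refine (Finset.card_union_le _ _).trans ?_
          have := Finset.card_le_card hX
          have := Finset.card_le_card hY
          simp at *
          omega
        rw [Finset.card_compl, Fintype.card_fin]
        omega

theorem crit_sep {n : ℕ} (H : SimpleGraph (Fin n)) (κ : ℕ) (hκ : 1 ≤ κ) (hn : κ + 1 ≤ n)
    (hc : CutConn H κ) (x y : Fin n) (hxy : H.Adj x y)
    (hcrit : ¬ CutConn (H.deleteEdges {s(x, y)}) κ) :
    ∃ X S Y : Finset (Fin n), x ∈ X ∧ y ∈ Y ∧ Disjoint X S ∧ Disjoint X Y ∧ Disjoint S Y ∧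
      X ∪ S ∪ Y = univ ∧ S.card + 1 = κ ∧ ∀ a ∈ X, ∀ b ∈ Y, H.Adj a b → a = x ∧ b = y := by
  classical
  unfold CutConn at hcrit
  push Not at hcrit
  obtain ⟨X, Y, hX, hY, hd, hno, hlt⟩ := hcrit
  have hno' : ∀ a ∈ X, ∀ b ∈ Y, H.Adj a b → (a = x ∧ b = y) ∨ (a = y ∧ b = x) := by
    intro a ha b hb hab
    have := hno a ha b hb
    rw [SimpleGraph.deleteEdges_adj] at this
    by_contra hcon
    apply this
    refine ⟨hab, ?_⟩
    simp only [Set.mem_singleton_iff, Sym2.eq_iff]
    exact hcon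
  have hex : ∃ a ∈ X, ∃ b ∈ Y, H.Adj a b := by
    by_contra hcon
    push Not at hcon
    exact absurd (hc X Y hX hY hd hcon) (by omega)
  obtain ⟨a, ha, b, hb, hab⟩ := hex
  rcases hno' a ha b hb hab with ⟨rfl, rfl⟩ | ⟨rfl, rfl⟩
  · refine crit_sep_aux H κ hκ hn hc a b X Y ha hb hd ?_ hlt
    intro c hc' d hd' hcd
    rcases hno' c hc' d hd' hcd with h | ⟨rfl, rfl⟩
    · exact h
    · exact absurd hb (Finset.disjoint_left.1 hd hc')
  · refine crit_sep_aux H κ hκ hn hc b a Y X hb ha hd.symm ?_ (by rwa [Finset.union_comm])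
    intro c hc' d hd' hcd
    rcases hno' d hd' c hc' hcd.symm with ⟨rfl, rfl⟩ | ⟨rfl, rfl⟩
    · exact absurd hb (Finset.disjoint_left.1 hd hd')
    · exact ⟨rfl, rfl⟩
end
end Pool.Agent.H383Mader

namespace Pool.Agent.H383Mader
section
open Finset
theorem core_part3 {n : ℕ} (A X S Y : Finset (Fin n)) (h3 : Disjoint X S) (h4 : Disjoint X Y)
    (h5 : Disjoint S Y) (h6 : X ∪ S ∪ Y = univ) :
    A.card = (A ∩ X).card + (A ∩ S).card + (A ∩ Y).card := by
  have e : A = (A ∩ X) ∪ (A ∩ S) ∪ (A ∩ Y) := by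
    rw [← Finset.inter_union_distrib_left, ← Finset.inter_union_distrib_left, h6,
      Finset.inter_univ]
  have d1 : Disjoint (A ∩ X) (A ∩ S) :=
    h3.mono Finset.inter_subset_right Finset.inter_subset_right
  have d2 : Disjoint ((A ∩ X) ∪ (A ∩ S)) (A ∩ Y) := by
    rw [Finset.disjoint_union_left]
    exact ⟨h4.mono Finset.inter_subset_right Finset.inter_subset_right,
      h5.mono Finset.inter_subset_right Finset.inter_subset_right⟩
  calc A.card = ((A ∩ X) ∪ (A ∩ S) ∪ (A ∩ Y)).card := by rw [← e]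
    _ = _ := by rw [Finset.card_union_of_disjoint d2, Finset.card_union_of_disjoint d1]


theorem core_sub1 {n : ℕ} (x : Fin n) (X S Y X' S' W' : Finset (Fin n))
    (m1 : ∀ u, u ∈ X ∨ u ∈ S ∨ u ∈ Y) (m2 : ∀ u, u ∈ X' ∨ u ∈ S' ∨ u ∈ W') :
    (((X ∩ X').erase x) ∪ (Y ∪ W'))ᶜ ⊆ (X ∩ S') ∪ (S ∩ S') ∪ (S ∩ X') ∪ {x} := by
  intro u hu
  simp only [Finset.mem_compl, Finset.mem_union, Finset.mem_erase, Finset.mem_inter,
    not_or] at hu
  simp only [Finset.mem_union, Finset.mem_inter, Finset.mem_singleton]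
  have a1 := m1 u
  have a2 := m2 u
  clear m1 m2
  tauto

theorem core_sub2 {n : ℕ} (x y w u : Fin n) (X S Y X' S' W' : Finset (Fin n))
    (a1 : u ∈ X ∨ u ∈ S ∨ u ∈ Y) (a2 : u ∈ X' ∨ u ∈ S' ∨ u ∈ W')
    (hux : u ≠ x) (a0 : ¬(u ≠ x ∧ u ∈ X ∧ u ∈ X')) (a3 : u ∈ Y → u = y) (a4 : u ∈ W' → u = w) :
    u ∈ (X ∩ S') ∪ (S ∩ S') ∪ (S ∩ X') ∪ {y, w} := by
  simp only [Finset.mem_union, Finset.mem_inter, Finset.mem_singleton, Finset.mem_insert]
  tauto

theorem core_sub3 {n : ℕ} (X S Y X' S' W' : Finset (Fin n))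
    (m1 : ∀ u, u ∈ X ∨ u ∈ S ∨ u ∈ Y) (m2 : ∀ u, u ∈ X' ∨ u ∈ S' ∨ u ∈ W') :
    ((Y ∩ W') ∪ (X ∪ X'))ᶜ ⊆ (Y ∩ S') ∪ (S ∩ S') ∪ (S ∩ W') := by
  intro u hu
  simp only [Finset.mem_compl, Finset.mem_union, Finset.mem_inter, not_or] at hu
  simp only [Finset.mem_union, Finset.mem_inter]
  have a1 := m1 u
  have a2 := m2 u
  clear m1 m2
  tauto

open Classical in
theorem core {n : ℕ} (H : SimpleGraph (Fin n)) (κ : ℕ) (hκ : 1 ≤ κ) (hc : CutConn H κ)
    (x y w : Fin n) (hyw : y ≠ w) (hxy : H.Adj x y) (hxw : H.Adj x w)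
    (hdeg : κ < (univ.filter (fun u => H.Adj x u)).card)
    (X S Y X' S' W' : Finset (Fin n))
    (h1 : x ∈ X) (h2 : y ∈ Y) (h3 : Disjoint X S) (h4 : Disjoint X Y) (h5 : Disjoint S Y)
    (h6 : X ∪ S ∪ Y = univ) (h7 : S.card + 1 = κ) (h8 : ∀ a ∈ X, ∀ b ∈ Y, H.Adj a b → a = x ∧ b = y)
    (h1' : x ∈ X') (h2' : w ∈ W') (h3' : Disjoint X' S') (h4' : Disjoint X' W') (h5' : Disjoint S' W')
    (h6' : X' ∪ S' ∪ W' = univ) (h7' : S'.card + 1 = κ)
    (h8' : ∀ a ∈ X', ∀ b ∈ W', H.Adj a b → a = x ∧ b = w) :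
    W'.card < X.card := by
  have m1 : ∀ u, u ∈ X ∨ u ∈ S ∨ u ∈ Y := by
    intro u
    have h : u ∈ X ∪ S ∪ Y := by rw [h6]; exact Finset.mem_univ u
    simp only [Finset.mem_union] at h
    tauto
  have m2 : ∀ u, u ∈ X' ∨ u ∈ S' ∨ u ∈ W' := by
    intro u
    have h : u ∈ X' ∪ S' ∪ W' := by rw [h6']; exact Finset.mem_univ u
    simp only [Finset.mem_union] at h
    tauto
  have hyW : y ∉ W' := fun h => hyw (h8' x h1' y h hxy).2
  have hwY : w ∉ Y := fun h => hyw (h8 x h1 w h hxw).2.symm
  have hXY : ∀ u, u ∈ X → u ∉ Y := fun u hu => Finset.disjoint_left.mp h4 hu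
  have hXW : ∀ u, u ∈ X' → u ∉ W' := fun u hu => Finset.disjoint_left.mp h4' hu
  have cX := core_part3 X X' S' W' h3' h4' h5' h6'
  have cS := core_part3 S X' S' W' h3' h4' h5' h6'
  have cS' := core_part3 S' X S Y h3 h4 h5 h6
  have cW' := core_part3 W' X S Y h3 h4 h5 h6
  rw [Finset.inter_comm S' X, Finset.inter_comm S' S, Finset.inter_comm S' Y] at cS'
  rw [Finset.inter_comm W' X, Finset.inter_comm W' S, Finset.inter_comm W' Y] at cW'
  have hxx : 1 ≤ (X ∩ X').card := Finset.card_pos.mpr ⟨x, Finset.mem_inter.mpr ⟨h1, h1'⟩⟩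
  -- Claim A
  have hA : κ ≤ (X ∩ S').card + (S ∩ S').card + (S ∩ X').card + 1 := by
    by_contra hcon
    push Not at hcon
    by_cases hne : ((X ∩ X').erase x).Nonempty
    · have h := hc ((X ∩ X').erase x) (Y ∪ W') hne ⟨y, Finset.mem_union_left _ h2⟩
        (by
          rw [Finset.disjoint_left]
          intro a ha hb
          rw [Finset.mem_erase, Finset.mem_inter] at ha
          rw [Finset.mem_union] at hb
          rcases hb with hb | hb
          · exact hXY a ha.2.1 hb
          · exact hXW a ha.2.2 hb)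
        (by
          intro a ha b hb hab
          rw [Finset.mem_erase, Finset.mem_inter] at ha
          rw [Finset.mem_union] at hb
          rcases hb with hb | hb
          · exact ha.1 (h8 a ha.2.1 b hb hab).1
          · exact ha.1 (h8' a ha.2.2 b hb hab).1)
      have hsub : (((X ∩ X').erase x) ∪ (Y ∪ W'))ᶜ ⊆
          (X ∩ S') ∪ (S ∩ S') ∪ (S ∩ X') ∪ {x} := core_sub1 x X S Y X' S' W' m1 m2
      have hcard := Finset.card_le_card hsub
      have c1 := Finset.card_union_le ((X ∩ S') ∪ (S ∩ S') ∪ (S ∩ X')) {x}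
      have c2 := Finset.card_union_le ((X ∩ S') ∪ (S ∩ S')) (S ∩ X')
      have c3 := Finset.card_union_le (X ∩ S') (S ∩ S')
      rw [Finset.card_singleton] at c1
      omega
    · rw [Finset.not_nonempty_iff_eq_empty] at hne
      have hsub : (univ.filter (fun u => H.Adj x u)) ⊆
          (X ∩ S') ∪ (S ∩ S') ∪ (S ∩ X') ∪ {y, w} := by
        intro u hu
        rw [Finset.mem_filter] at hu
        have hux : u ≠ x := hu.2.ne'
        have a0 : u ∉ (X ∩ X').erase x := by rw [hne]; exact Finset.notMem_empty u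
        rw [Finset.mem_erase, Finset.mem_inter] at a0
        have a1 := m1 u
        have a2 := m2 u
        have a3 : u ∈ Y → u = y := fun h => (h8 x h1 u h hu.2).2
        have a4 : u ∈ W' → u = w := fun h => (h8' x h1' u h hu.2).2
        exact core_sub2 x y w u X S Y X' S' W' a1 a2 hux a0 a3 a4
      have hcard := Finset.card_le_card hsub
      have c1 := Finset.card_union_le ((X ∩ S') ∪ (S ∩ S') ∪ (S ∩ X')) {y, w}
      have c2 := Finset.card_union_le ((X ∩ S') ∪ (S ∩ S')) (S ∩ X')
      have c3 := Finset.card_union_le (X ∩ S') (S ∩ S')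
      have c4 : ({y, w} : Finset (Fin n)).card ≤ 2 := Finset.card_le_two
      omega
  -- Claim B
  have hB : (Y ∩ W').card = 0 := by
    rw [Finset.card_eq_zero]
    by_contra hne
    have hne' : (Y ∩ W').Nonempty := Finset.nonempty_iff_ne_empty.mpr hne
    have h := hc (Y ∩ W') (X ∪ X') hne' ⟨x, Finset.mem_union_left _ h1⟩
        (by
          rw [Finset.disjoint_left]
          intro a ha hb
          rw [Finset.mem_inter] at ha
          rw [Finset.mem_union] at hb
          rcases hb with hb | hb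
          · exact hXY a hb ha.1
          · exact hXW a hb ha.2)
        (by
          intro b hb a ha hab
          rw [Finset.mem_inter] at hb
          rw [Finset.mem_union] at ha
          rcases ha with ha | ha
          · have := (h8 a ha b hb.1 hab.symm).2
            rw [this] at hb
            exact hyW hb.2
          · have := (h8' a ha b hb.2 hab.symm).2
            rw [this] at hb
            exact hwY hb.1)
    have hsub : ((Y ∩ W') ∪ (X ∪ X'))ᶜ ⊆ (Y ∩ S') ∪ (S ∩ S') ∪ (S ∩ W') :=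
      core_sub3 X S Y X' S' W' m1 m2
    have hcard := Finset.card_le_card hsub
    have c2 := Finset.card_union_le ((Y ∩ S') ∪ (S ∩ S')) (S ∩ W')
    have c3 := Finset.card_union_le (Y ∩ S') (S ∩ S')
    omega
  omega
end
end Pool.Agent.H383Mader

namespace Pool.Agent.H383Mader
section
open Finset
open Classical in
theorem peel {n : ℕ} (H : SimpleGraph (Fin n)) (D : Finset (Fin n)) (hD : D.Nonempty)
    (h : ∀ D' ⊆ D, D'.Nonempty → ∃ v ∈ D', (D'.filter (fun u => H.Adj v u)).card ≤ 1) :
    (∑ v ∈ D, (D.filter (fun u => H.Adj v u)).card) + 2 ≤ 2 * D.card := by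
  induction' hk : D.card using Nat.strong_induction_on with k ih generalizing D
  obtain ⟨v, hv, hvc⟩ := h D (Finset.Subset.refl D) hD
  have h1 : ∑ w ∈ D, (D.filter (fun u => H.Adj w u)).card
      = (D.filter (fun u => H.Adj v u)).card
        + ∑ w ∈ D.erase v, (D.filter (fun u => H.Adj w u)).card :=
    (Finset.add_sum_erase D (fun w => (D.filter (fun u => H.Adj w u)).card) hv).symm
  have hcard : (D.erase v).card = D.card - 1 := Finset.card_erase_of_mem hv
  have hpos : 0 < D.card := Finset.card_pos.mpr hD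
  have h2 : ∀ w ∈ D.erase v, (D.filter (fun u => H.Adj w u)).card
      = ((D.erase v).filter (fun u => H.Adj w u)).card + if H.Adj w v then 1 else 0 := by
    intro w hw
    have h0 : D = insert v (D.erase v) := (Finset.insert_erase hv).symm
    conv_lhs => rw [h0]
    rw [Finset.filter_insert]
    split_ifs with h3
    · rw [Finset.card_insert_of_notMem]
      intro h4
      exact absurd (Finset.mem_filter.mp h4).1 (Finset.notMem_erase v D)
    · rfl
  have h3 : ∑ w ∈ D.erase v, (if H.Adj w v then 1 else 0)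
      = (D.filter (fun u => H.Adj v u)).card := by
    rw [← Finset.card_filter]
    congr 1
    ext u
    simp only [Finset.mem_filter, Finset.mem_erase]
    constructor
    · rintro ⟨⟨_, h5⟩, h6⟩
      exact ⟨h5, h6.symm⟩
    · rintro ⟨h5, h6⟩
      exact ⟨⟨h6.ne', h5⟩, h6.symm⟩
  rw [h1, Finset.sum_congr rfl h2, Finset.sum_add_distrib, h3]
  by_cases hne : (D.erase v).Nonempty
  · have ih' := ih (D.erase v).card (by omega) (D.erase v) hne
      (fun D' hD' hn => h D' (hD'.trans (Finset.erase_subset v D)) hn) rfl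
    omega
  · rw [Finset.not_nonempty_iff_eq_empty] at hne
    have hz : (D.filter (fun u => H.Adj v u)).card = 0 := by
      rw [← h3, hne]
      simp
    rw [hz, hne]
    simp
    omega
end
end Pool.Agent.H383Mader

namespace Pool.Agent.H383Mader
section
open Finset
open Classical in
theorem count_low {n : ℕ} (H : SimpleGraph (Fin n)) (κ : ℕ) (hκ : 1 ≤ κ) (hn : κ + 1 ≤ n)
    (hdeg : ∀ v, κ ≤ (univ.filter (fun u => H.Adj v u)).card)
    (hpeel : ∀ D : Finset (Fin n), D.Nonempty → (∀ v ∈ D, κ < (univ.filter (fun u => H.Adj v u)).card) →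
      (∑ v ∈ D, (D.filter (fun u => H.Adj v u)).card) + 2 ≤ 2 * D.card) :
    (κ - 1) * n + 2 ≤ (2 * κ - 1) * (univ.filter (fun v : Fin n => (univ.filter (fun u => H.Adj v u)).card = κ)).card := by
  obtain ⟨D, hD⟩ : ∃ D : Finset (Fin n), D = univ.filter (fun v : Fin n => κ < (univ.filter (fun u => H.Adj v u)).card) :=
    ⟨_, rfl⟩
  obtain ⟨A, hA⟩ : ∃ A : Finset (Fin n), A = univ.filter (fun v : Fin n => (univ.filter (fun u => H.Adj v u)).card = κ) :=
    ⟨_, rfl⟩
  rw [← hA]
  have hAD : A = univ \ D := by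
    ext v
    rw [hA, hD]
    simp only [mem_filter, mem_univ, true_and, mem_sdiff, not_lt]
    have := hdeg v
    omega
  have hcard : D.card + A.card = n := by
    have h := Finset.card_sdiff_add_card_eq_card (Finset.subset_univ D)
    rw [← hAD, Finset.card_univ, Fintype.card_fin] at h
    omega
  obtain ⟨c, rfl⟩ : ∃ c, κ = c + 1 := ⟨κ - 1, by omega⟩
  have e1 : c + 1 - 1 = c := by omega
  have e2 : 2 * (c + 1) - 1 = 2 * c + 1 := by omega
  rw [e1, e2]
  rcases D.eq_empty_or_nonempty with hDe | hDn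
  · have hAn : A.card = n := by
      rw [hDe, Finset.card_empty] at hcard
      omega
    rw [hAn]
    nlinarith [Nat.zero_le (c * n)]
  · have hDmem : ∀ v ∈ D, c + 1 < (univ.filter (fun u => H.Adj v u)).card := by
      intro v hv
      rw [hD] at hv
      exact (Finset.mem_filter.1 hv).2
    have h0 := hpeel D hDn hDmem
    have h1 : D.card * (c + 2) ≤ ∑ v ∈ D, (univ.filter (fun u => H.Adj v u)).card := by
      have := Finset.card_nsmul_le_sum D (fun v => (univ.filter (fun u => H.Adj v u)).card) (c + 2)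
        (fun v hv => hDmem v hv)
      simpa using this
    have h2 : ∀ v, (univ.filter (fun u => H.Adj v u)).card =
        (D.filter (fun u => H.Adj v u)).card + (A.filter (fun u => H.Adj v u)).card := by
      intro v
      have hdisj : Disjoint (D.filter (fun u => H.Adj v u)) (A.filter (fun u => H.Adj v u)) := by
        apply Finset.disjoint_filter_filter
        rw [hAD]
        exact Finset.disjoint_sdiff
      rw [← Finset.card_union_of_disjoint hdisj, ← Finset.filter_union, hAD,
        Finset.union_sdiff_of_subset (Finset.subset_univ D)]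
    have h3 : ∑ v ∈ D, (A.filter (fun u => H.Adj v u)).card =
        ∑ a ∈ A, (D.filter (fun u => H.Adj a u)).card := by
      simp only [Finset.card_filter]
      rw [Finset.sum_comm]
      refine Finset.sum_congr rfl fun a _ => Finset.sum_congr rfl fun v _ => ?_
      simp only [H.adj_comm a v]
    have h4 : ∑ a ∈ A, (D.filter (fun u => H.Adj a u)).card ≤ A.card * (c + 1) := by
      have := Finset.sum_le_card_nsmul A (fun a => (D.filter (fun u => H.Adj a u)).card) (c + 1)
        (fun a ha => by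
          rw [hA] at ha
          have := (Finset.mem_filter.1 ha).2
          rw [← this]
          exact Finset.card_le_card (Finset.filter_subset_filter _ (Finset.subset_univ D)))
      simpa using this
    have h5 : ∑ v ∈ D, (univ.filter (fun u => H.Adj v u)).card =
        ∑ v ∈ D, (D.filter (fun u => H.Adj v u)).card +
          ∑ v ∈ D, (A.filter (fun u => H.Adj v u)).card := by
      rw [← Finset.sum_add_distrib]
      exact Finset.sum_congr rfl fun v _ => h2 v
    have h6 : D.card * (c + 2) + 2 ≤ 2 * D.card + A.card * (c + 1) := by omega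
    have h7 : c * n = c * (D.card + A.card) := by rw [hcard]
    rw [h7]
    nlinarith
end
end Pool.Agent.H383Mader

namespace Pool.Agent.H383Mader
section
open Finset
open Classical in
theorem deg_ge {n : ℕ} (G : SimpleGraph (Fin n)) (k : ℕ) (hn : k + 1 ≤ n) (hc : CutConn G k) (v : Fin n) :
    k ≤ (univ.filter (fun u => G.Adj v u)).card := by
  obtain ⟨N, hN⟩ : ∃ N : Finset (Fin n), N = univ.filter (fun u => G.Adj v u) := ⟨_, rfl⟩
  rw [← hN]
  have hmem : ∀ u, u ∈ N ↔ G.Adj v u := by
    intro u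
    rw [hN, mem_filter]
    exact ⟨fun h => h.2, fun h => ⟨mem_univ _, h⟩⟩
  have hv : v ∉ N := fun h => G.irrefl ((hmem v).1 h)
  by_cases hY : ((insert v N)ᶜ : Finset (Fin n)).Nonempty
  · have hcomp : (({v} : Finset (Fin n)) ∪ (insert v N)ᶜ)ᶜ = N := by
      ext u
      rw [mem_compl, mem_union, mem_singleton, mem_compl, mem_insert]
      constructor
      · intro h
        by_contra hu
        apply h
        by_cases huv : u = v
        · exact Or.inl huv
        · right
          rintro (h1 | h1)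
          · exact huv h1
          · exact hu h1
      · intro hu h
        rcases h with h | h
        · exact hv (h ▸ hu)
        · exact h (Or.inr hu)
    have := hc {v} (insert v N)ᶜ (singleton_nonempty v) hY ?_ ?_
    · rw [hcomp] at this
      exact this
    · rw [disjoint_singleton_left, mem_compl, not_not]
      exact mem_insert_self _ _
    · intro x hx y hy hadj
      rw [mem_singleton] at hx
      subst hx
      rw [mem_compl] at hy
      exact hy (mem_insert_of_mem ((hmem y).2 hadj))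
  · rw [not_nonempty_iff_eq_empty, compl_eq_empty_iff] at hY
    have h1 : (insert v N).card = N.card + 1 := card_insert_of_notMem hv
    rw [hY, card_univ, Fintype.card_fin] at h1
    omega
end
end Pool.Agent.H383Mader

namespace Pool.Agent.H383Mader
section
open Finset
theorem bip_kconn (n k : ℕ) (hk : 1 ≤ k) (hn : 2 * k ≤ n) :
    KConn (SimpleGraph.fromRel (fun i j : Fin n => i.1 < k ∧ k ≤ j.1)) k := by
  refine ⟨by omega, ?_⟩
  intro S hS
  have hA : ∃ a : Fin n, a.1 < k ∧ a ∉ S := by
    by_contra hcon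
    push Not at hcon
    have : (Finset.univ : Finset (Fin k)).card ≤ S.card := by
      apply Finset.card_le_card_of_injOn (fun i : Fin k => (⟨i.1, by omega⟩ : Fin n))
      · intro i _
        exact hcon ⟨i.1, by omega⟩ i.2
      · intro i _ j _ hij
        simp only [Fin.mk.injEq] at hij
        exact Fin.ext hij
    simp at this
    omega
  have hB : ∃ b : Fin n, k ≤ b.1 ∧ b ∉ S := by
    by_contra hcon
    push Not at hcon
    have : (Finset.univ : Finset (Fin k)).card ≤ S.card := by
      apply Finset.card_le_card_of_injOn (fun i : Fin k => (⟨k + i.1, by omega⟩ : Fin n))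
      · intro i _
        exact hcon ⟨k + i.1, by omega⟩ (by simp)
      · intro i _ j _ hij
        simp only [Fin.mk.injEq] at hij
        exact Fin.ext (by omega)
    simp at this
    omega
  obtain ⟨a, hak, haS⟩ := hA
  obtain ⟨b, hbk, hbS⟩ := hB
  have hadj : ∀ (x y : {v : Fin n | v ∉ S}), x.1.1 < k → k ≤ y.1.1 →
      ((SimpleGraph.fromRel (fun i j : Fin n => i.1 < k ∧ k ≤ j.1)).induce
        {v | v ∉ S}).Adj x y := by
    intro x y hx hy
    rw [SimpleGraph.comap_adj, SimpleGraph.fromRel_adj]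
    refine ⟨?_, Or.inl ⟨hx, hy⟩⟩
    intro h
    have : x.1.1 = y.1.1 := congrArg Fin.val h
    omega
  rw [SimpleGraph.connected_iff_exists_forall_reachable]
  refine ⟨⟨a, haS⟩, ?_⟩
  intro w
  have hab := hadj ⟨a, haS⟩ ⟨b, hbS⟩ hak hbk
  by_cases hw : w.1.1 < k
  · have hwb := hadj w ⟨b, hbS⟩ hw hbk
    exact hab.reachable.trans hwb.symm.reachable
  · exact (hadj ⟨a, haS⟩ w hak (by omega)).reachable
end
end Pool.Agent.H383Mader

namespace Pool.Agent.H383Mader
section
open Finset
theorem circ_kconn_seg (P Q : ℕ → Prop) (u v : ℕ) (huv : u < v) (hP : P u) (hQ : Q v) :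
    ∃ i j, u ≤ i ∧ i < j ∧ j ≤ v ∧ P i ∧ Q j ∧ ∀ t, i < t → t < j → ¬ P t ∧ ¬ Q t := by
  classical
  have hex : ∃ d, ∃ i j, u ≤ i ∧ i < j ∧ j ≤ v ∧ P i ∧ Q j ∧ j - i = d :=
    ⟨v - u, u, v, le_rfl, huv, le_rfl, hP, hQ, rfl⟩
  obtain ⟨i, j, h1, h2, h3, h4, h5, h6⟩ := Nat.find_spec hex
  refine ⟨i, j, h1, h2, h3, h4, h5, fun t ht1 ht2 => ⟨fun hPt => ?_, fun hQt => ?_⟩⟩
  · have := Nat.find_min' hex ⟨t, j, by omega, ht2, h3, hPt, h5, rfl⟩
    omega
  · have := Nat.find_min' hex ⟨i, t, h1, ht1, by omega, h4, hQt, rfl⟩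
    omega

/-- circulant graph: even connectivity (Harary graph) -/
theorem circ_kconn (n h : ℕ) (hh : 1 ≤ h) (hn : 2 * h + 1 ≤ n) :
    CutConn (SimpleGraph.fromRel (fun i j : Fin n => ∃ d : ℕ, 1 ≤ d ∧ d ≤ h ∧ (i.1 + d) % n = j.1)) (2 * h) := by
  classical
  intro X Y hX hY hdis hno
  obtain ⟨a, ha⟩ := hX
  obtain ⟨b, hb⟩ := hY
  have hn0 : 0 < n := by omega
  let g : ℕ → Fin n := fun t => ⟨(a.1 + t) % n, Nat.mod_lt _ hn0⟩
  have hg0 : g 0 = a := by
    apply Fin.ext
    simp [g, Nat.mod_eq_of_lt a.2]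
  have hgn : g n = a := by
    apply Fin.ext
    simp [g, Nat.mod_eq_of_lt a.2]
  have hginj : ∀ s t : ℕ, s < n → t < n → g s = g t → s = t := by
    intro s t hs ht h
    have h1 : (a.1 + s) % n = (a.1 + t) % n := congrArg Fin.val h
    have h2 : s ≡ t [MOD n] := Nat.ModEq.add_left_cancel' a.1 h1
    have h3 : s % n = t % n := h2
    rwa [Nat.mod_eq_of_lt hs, Nat.mod_eq_of_lt ht] at h3
  have hdisj : ∀ x, x ∈ X → x ∈ Y → False := fun x h1 h2 =>
    (Finset.disjoint_left.1 hdis) h1 h2
  -- offset of b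
  obtain ⟨L, hL, hgL⟩ : ∃ L, L < n ∧ g L = b := by
    refine ⟨(b.1 + (n - a.1)) % n, Nat.mod_lt _ hn0, ?_⟩
    apply Fin.ext
    show (a.1 + (b.1 + (n - a.1)) % n) % n = b.1
    rw [Nat.add_mod_mod]
    have : a.1 + (b.1 + (n - a.1)) = b.1 + n := by
      have := a.2
      omega
    rw [this, Nat.add_mod_right, Nat.mod_eq_of_lt b.2]
  have hL0 : 0 < L := by
    rcases Nat.eq_zero_or_pos L with h0 | h0
    · exfalso
      rw [h0, hg0] at hgL
      rw [← hgL] at hb
      exact hdisj a ha hb
    · exact h0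
  have hrel : ∀ i j : ℕ, i < j → j ≤ i + h → ∃ d : ℕ, 1 ≤ d ∧ d ≤ h ∧ ((g i).1 + d) % n = (g j).1 := by
    intro i j hij hj
    refine ⟨j - i, by omega, by omega, ?_⟩
    show ((a.1 + i) % n + (j - i)) % n = (a.1 + j) % n
    rw [Nat.mod_add_mod]
    congr 1
    omega
  obtain ⟨i1, j1, p1, p2, p3, p4, p5, p6⟩ := circ_kconn_seg (fun t => g t ∈ X) (fun t => g t ∈ Y) 0 L hL0
    (by rw [hg0]; exact ha) (by rw [hgL]; exact hb)
  obtain ⟨i2, j2, q1, q2, q3, q4, q5, q6⟩ := circ_kconn_seg (fun t => g t ∈ Y) (fun t => g t ∈ X) L n hL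
    (by rw [hgL]; exact hb) (by rw [hgn]; exact ha)
  have k1 : i1 + h < j1 := by
    by_contra hc
    push Not at hc
    refine hno _ p4 _ p5 ?_
    rw [SimpleGraph.fromRel_adj]
    exact ⟨fun he => hdisj _ p4 (he ▸ p5), Or.inl (hrel i1 j1 p2 hc)⟩
  have k2 : i2 + h < j2 := by
    by_contra hc
    push Not at hc
    refine hno _ q5 _ q4 ?_
    rw [SimpleGraph.fromRel_adj]
    exact ⟨fun he => hdisj _ q5 (he ▸ q4), Or.inr (hrel i2 j2 q2 hc)⟩
  have hcard : ((Finset.Ioc i1 (i1 + h) ∪ Finset.Ioc i2 (i2 + h)).image g).card = 2 * h := by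
    rw [Finset.card_image_of_injOn, Finset.card_union_of_disjoint]
    · simp
      omega
    · rw [Finset.disjoint_left]
      intro t ht1 ht2
      simp only [Finset.mem_Ioc] at ht1 ht2
      omega
    · intro s hs t ht hst
      simp only [Finset.coe_union, Finset.coe_Ioc, Set.mem_union, Set.mem_Ioc] at hs ht
      exact hginj s t (by omega) (by omega) hst
  rw [← hcard]
  apply Finset.card_le_card
  intro x hx
  rw [Finset.mem_image] at hx
  obtain ⟨t, ht, rfl⟩ := hx
  simp only [Finset.mem_union, Finset.mem_Ioc] at ht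
  rw [Finset.mem_compl, Finset.mem_union, not_or]
  rcases ht with ht | ht
  · have := p6 t ht.1 (by omega)
    exact this
  · have := q6 t ht.1 (by omega)
    exact ⟨this.2, this.1⟩
end
end Pool.Agent.H383Mader

namespace Pool.Agent.H383Mader
section
open Finset
open Classical in
theorem handshake {n : ℕ} (G : SimpleGraph (Fin n)) (F : Finset (Sym2 (Fin n)))
    (hF : (F : Set (Sym2 (Fin n))) ⊆ G.edgeSet) :
    ∑ v, (univ.filter (fun u => G.Adj v u)).card
      = ∑ v, (univ.filter (fun u => (G.deleteEdges (F : Set (Sym2 (Fin n)))).Adj v u)).card + 2 * F.card := by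
  have h : ∀ H : SimpleGraph (Fin n), ∑ v, (univ.filter (fun u => H.Adj v u)).card =
      2 * H.edgeSet.ncard := by
    intro H
    have h1 := H.sum_degrees_eq_twice_card_edges
    have h2 : H.edgeSet.ncard = H.edgeFinset.card := by
      rw [← Set.ncard_coe_finset, SimpleGraph.coe_edgeFinset]
    rw [h2, ← h1]
    refine sum_congr rfl fun v _ => ?_
    rw [← H.card_neighborFinset_eq_degree]
    congr 1
    ext u
    simp
  have h' : ∑ v, (univ.filter (fun u => (G.deleteEdges (F : Set (Sym2 (Fin n)))).Adj v u)).card =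
      2 * (G.deleteEdges (F : Set (Sym2 (Fin n)))).edgeSet.ncard := by
    rw [← h]
    refine sum_congr rfl fun v _ => ?_
    congr 1
    ext u
    simp only [mem_filter]
  rw [h, h', SimpleGraph.edgeSet_deleteEdges, ← Set.ncard_coe_finset F, ← mul_add,
    Set.ncard_sdiff_add_ncard_of_subset hF (Set.toFinite _)]
end
end Pool.Agent.H383Mader

namespace Pool.Agent.H383Mader
section
open Finset
open Classical in
theorem circ_deg (n h : ℕ) (hn : 2 * h + 1 ≤ n) (v : Fin n) :
    (univ.filter (fun u => (SimpleGraph.fromRel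
      (fun i j : Fin n => ∃ d : ℕ, 1 ≤ d ∧ d ≤ h ∧ (i.1 + d) % n = j.1)).Adj v u)).card ≤ 2 * h := by
  have hn0 : 0 < n := by omega
  have hsub : (univ.filter (fun u => (SimpleGraph.fromRel
      (fun i j : Fin n => ∃ d : ℕ, 1 ≤ d ∧ d ≤ h ∧ (i.1 + d) % n = j.1)).Adj v u)) ⊆
      ((Finset.Icc 1 h).image (fun d => (⟨(v.1 + d) % n, Nat.mod_lt _ hn0⟩ : Fin n))) ∪
      ((Finset.Icc 1 h).image (fun d => (⟨(v.1 + (n - d)) % n, Nat.mod_lt _ hn0⟩ : Fin n))) := by
    intro u hu
    rw [Finset.mem_filter] at hu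
    have h2 := hu.2
    rw [SimpleGraph.fromRel_adj] at h2
    rw [Finset.mem_union, Finset.mem_image, Finset.mem_image]
    rcases h2.2 with ⟨d, hd1, hd2, hd3⟩ | ⟨d, hd1, hd2, hd3⟩
    · left
      exact ⟨d, Finset.mem_Icc.mpr ⟨hd1, hd2⟩, Fin.ext hd3⟩
    · right
      refine ⟨d, Finset.mem_Icc.mpr ⟨hd1, hd2⟩, Fin.ext ?_⟩
      show (v.1 + (n - d)) % n = u.1
      rw [← hd3, Nat.mod_add_mod]
      have h3 : u.1 + d + (n - d) = u.1 + n := by omega
      rw [h3, Nat.add_mod_right, Nat.mod_eq_of_lt u.2]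
  refine (Finset.card_le_card hsub).trans ((Finset.card_union_le _ _).trans ?_)
  have h1 := Finset.card_image_le (s := Finset.Icc 1 h)
    (f := fun d => (⟨(v.1 + d) % n, Nat.mod_lt _ hn0⟩ : Fin n))
  have h2 := Finset.card_image_le (s := Finset.Icc 1 h)
    (f := fun d => (⟨(v.1 + (n - d)) % n, Nat.mod_lt _ hn0⟩ : Fin n))
  rw [Nat.card_Icc] at h1 h2
  omega
end
end Pool.Agent.H383Mader

namespace Pool.Agent.H383Mader
section
open Finset
open Classical in
theorem bip_removal (n k : ℕ) (hk : 1 ≤ k) (hn : 2 * k ≤ n) (F : Finset (Sym2 (Fin n)))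
    (hF : (F : Set (Sym2 (Fin n))) ⊆ (SimpleGraph.fromRel (fun i j : Fin n => i.1 < k ∧ k ≤ j.1)).edgeSet)
    (hdeg : ∀ v, k - 1 ≤ (univ.filter (fun u =>
      ((SimpleGraph.fromRel (fun i j : Fin n => i.1 < k ∧ k ≤ j.1)).deleteEdges (F : Set (Sym2 (Fin n)))).Adj v u)).card) :
    F.card ≤ n - k := by
  have hkn : k < n := by omega
  haveI : Nonempty (Fin n) := ⟨⟨0, by omega⟩⟩
  have H : ∀ e ∈ F, ∃ a b : Fin n, e = s(a, b) ∧ a.1 < k ∧ k ≤ b.1 := by
    intro e he
    have h1 := hF (Finset.mem_coe.2 he)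
    induction e with
    | _ x y =>
      rw [SimpleGraph.mem_edgeSet, SimpleGraph.fromRel_adj] at h1
      rcases h1.2 with h | h
      · exact ⟨x, y, rfl, h.1, h.2⟩
      · exact ⟨y, x, Sym2.eq_swap, h.1, h.2⟩
  choose! A B hAB using H
  have hcard : (Finset.Ici (⟨k, hkn⟩ : Fin n)).card = n - k := by
    rw [Fin.card_Ici]
  rw [← hcard]
  apply Finset.card_le_card_of_injOn B
  · intro e he
    have := (hAB e (Finset.mem_coe.1 he)).2.2
    rw [Finset.mem_coe, Finset.mem_Ici]
    exact this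
  · intro e he e' he' hB
    have h1 := hAB e (Finset.mem_coe.1 he)
    have h2 := hAB e' (Finset.mem_coe.1 he')
    by_contra hne
    have hA : A e ≠ A e' := by
      intro h
      apply hne
      rw [h1.1, h2.1, h, hB]
    have hd := hdeg (B e)
    have hsub : (univ.filter (fun u =>
      ((SimpleGraph.fromRel (fun i j : Fin n => i.1 < k ∧ k ≤ j.1)).deleteEdges (F : Set (Sym2 (Fin n)))).Adj (B e) u))
        ⊆ ((Finset.Iio (⟨k, hkn⟩ : Fin n)).erase (A e)).erase (A e') := by
      intro u hu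
      rw [Finset.mem_filter, SimpleGraph.deleteEdges_adj, SimpleGraph.fromRel_adj] at hu
      obtain ⟨-, ⟨hne', hor⟩, hnF⟩ := hu
      have hub : u.1 < k := by
        rcases hor with h | h
        · exact absurd h.1 (not_lt.2 h1.2.2)
        · exact h.1
      rw [Finset.mem_erase, Finset.mem_erase, Finset.mem_Iio]
      refine ⟨?_, ?_, hub⟩
      · rintro rfl
        apply hnF
        rw [Finset.mem_coe, hB, Sym2.eq_swap, ← h2.1]
        exact Finset.mem_coe.1 he'
      · rintro rfl
        apply hnF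
        rw [Finset.mem_coe, Sym2.eq_swap, ← h1.1]
        exact Finset.mem_coe.1 he
    have hc := Finset.card_le_card hsub
    have m1 : A e ∈ Finset.Iio (⟨k, hkn⟩ : Fin n) := by
      rw [Finset.mem_Iio]; exact h1.2.1
    have m2 : A e' ∈ (Finset.Iio (⟨k, hkn⟩ : Fin n)).erase (A e) := by
      rw [Finset.mem_erase, Finset.mem_Iio]; exact ⟨hA.symm, h2.2.1⟩
    rw [Finset.card_erase_of_mem m2, Finset.card_erase_of_mem m1, Fin.card_Iio] at hc
    have h3 : (⟨k, hkn⟩ : Fin n).1 = k := rfl
    rw [h3] at hc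
    have hk2 : 2 ≤ k := by
      have e1 := h1.2.1
      have e2 := h2.2.1
      by_contra hlt
      have : k = 1 := by omega
      apply hA
      apply Fin.ext
      omega
    omega
end
end Pool.Agent.H383Mader

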