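import Mathlib
import Pool.Agent.H383Mader.Lemmas

namespace Pool.Agent.H383Mader
section
open Finset
/-- Harary graph of odd connectivity on an even number 2 * N of vertices -/
theorem circ_odd_kconn (N h : ℕ) (hN : h + 1 ≤ N) (hh : 1 ≤ h) :
    CutConn (SimpleGraph.fromRel (fun i j : Fin (2 * N) =>
      (∃ d : ℕ, 1 ≤ d ∧ d ≤ h ∧ (i.1 + d) % (2 * N) = j.1) ∨ (i.1 + N) % (2 * N) = j.1)) (2 * h + 1) := by
  classical
  intro X Y hX hY hdis hno
  obtain ⟨a, ha⟩ := hX
  obtain ⟨b, hb⟩ := hY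
  obtain ⟨n, hn⟩ : ∃ n, n = 2 * N := ⟨_, rfl⟩
  have hn0 : 0 < 2 * N := by omega
  let g : ℕ → Fin (2 * N) := fun t => ⟨(a.1 + t) % (2 * N), Nat.mod_lt _ hn0⟩
  have hg0 : g 0 = a := by
    apply Fin.ext
    simp [g, Nat.mod_eq_of_lt a.2]
  have hgn : g (2 * N) = a := by
    apply Fin.ext
    simp [g, Nat.mod_eq_of_lt a.2]
  have hgmod : ∀ s t : ℕ, g s = g t → s ≡ t [MOD (2 * N)] := by
    intro s t h
    have h1 : (a.1 + s) % (2 * N) = (a.1 + t) % (2 * N) := congrArg Fin.val h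
    exact Nat.ModEq.add_left_cancel' a.1 h1
  have hginj' : ∀ s t : ℕ, s ≤ t → t < s + 2 * N → g s = g t → s = t := by
    intro s t hs ht h
    have h2 := hgmod s t h
    have h3 := (Nat.modEq_iff_dvd' hs).mp h2
    have h4 := Nat.eq_zero_of_dvd_of_lt h3 (by omega)
    omega
  have hginj : ∀ s t : ℕ, s < 2 * N → t < 2 * N → g s = g t → s = t := by
    intro s t hs ht h
    rcases le_total s t with hst | hst
    · exact hginj' s t hst (by omega) h
    · exact (hginj' t s hst (by omega) h.symm).symm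
  have hdisj : ∀ x, x ∈ X → x ∈ Y → False := fun x h1 h2 =>
    (Finset.disjoint_left.1 hdis) h1 h2
  -- offset of b
  obtain ⟨L, hL, hgL⟩ : ∃ L, L < 2 * N ∧ g L = b := by
    refine ⟨(b.1 + (2 * N - a.1)) % (2 * N), Nat.mod_lt _ hn0, ?_⟩
    apply Fin.ext
    show (a.1 + (b.1 + (2 * N - a.1)) % (2 * N)) % (2 * N) = b.1
    rw [Nat.add_mod_mod]
    have : a.1 + (b.1 + (2 * N - a.1)) = b.1 + 2 * N := by
      have := a.2
      omega
    rw [this, Nat.add_mod_right, Nat.mod_eq_of_lt b.2]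
  have hL0 : 0 < L := by
    rcases Nat.eq_zero_or_pos L with h0 | h0
    · exfalso
      rw [h0, hg0] at hgL
      rw [← hgL] at hb
      exact hdisj a ha hb
    · exact h0
  have hrel : ∀ i j : ℕ, i < j → j ≤ i + h → ∃ d : ℕ, 1 ≤ d ∧ d ≤ h ∧ ((g i).1 + d) % (2 * N) = (g j).1 := by
    intro i j hij hj
    refine ⟨j - i, by omega, by omega, ?_⟩
    show ((a.1 + i) % (2 * N) + (j - i)) % (2 * N) = (a.1 + j) % (2 * N)
    rw [Nat.mod_add_mod]
    congr 1
    omega
  -- no edge between near positions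
  have hXY : ∀ i j : ℕ, i < j → j ≤ i + h → g i ∈ X → g j ∈ Y → False := by
    intro i j hij hj hi hj'
    refine hno _ hi _ hj' ?_
    rw [SimpleGraph.fromRel_adj]
    exact ⟨fun he => hdisj _ hi (he ▸ hj'), Or.inl (Or.inl (hrel i j hij hj))⟩
  have hYX : ∀ i j : ℕ, i < j → j ≤ i + h → g i ∈ Y → g j ∈ X → False := by
    intro i j hij hj hi hj'
    refine hno _ hj' _ hi ?_
    rw [SimpleGraph.fromRel_adj]
    exact ⟨fun he => hdisj _ hj' (he ▸ hi), Or.inr (Or.inl (hrel i j hij hj))⟩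
  obtain ⟨i1, j1, p1, p2, p3, p4, p5, p6⟩ := circ_kconn_seg (fun t => g t ∈ X) (fun t => g t ∈ Y) 0 L hL0
    (by rw [hg0]; exact ha) (by rw [hgL]; exact hb)
  obtain ⟨i2, j2, q1, q2, q3, q4, q5, q6⟩ := circ_kconn_seg (fun t => g t ∈ Y) (fun t => g t ∈ X) L (2 * N) hL
    (by rw [hgL]; exact hb) (by rw [hgn]; exact ha)
  have k1 : i1 + h < j1 := by
    by_contra hc
    push Not at hc
    exact hXY i1 j1 p2 hc p4 p5
  have k2 : i2 + h < j2 := by
    by_contra hc
    push Not at hc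
    exact hYX i2 j2 q2 hc q4 q5
  have hcard : ((Finset.Ioc i1 (i1 + h) ∪ Finset.Ioc i2 (i2 + h)).image g).card = 2 * h := by
    rw [Finset.card_image_of_injOn, Finset.card_union_of_disjoint]
    · simp
      omega
    · rw [Finset.disjoint_left]
      intro t ht1 ht2
      simp only [Finset.mem_Ioc] at ht1 ht2
      omega
    · intro s hs t ht hst
      simp only [Finset.coe_union, Finset.coe_Ioc, Set.mem_union, Set.mem_Ioc] at hs ht
      exact hginj s t (by omega) (by omega) hst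
  have hsub : ((Finset.Ioc i1 (i1 + h) ∪ Finset.Ioc i2 (i2 + h)).image g) ⊆ (X ∪ Y)ᶜ := by
    intro x hx
    rw [Finset.mem_image] at hx
    obtain ⟨t, ht, rfl⟩ := hx
    simp only [Finset.mem_union, Finset.mem_Ioc] at ht
    rw [Finset.mem_compl, Finset.mem_union, not_or]
    rcases ht with ht | ht
    · have := p6 t ht.1 (by omega)
      exact this
    · have := q6 t ht.1 (by omega)
      exact ⟨this.2, this.1⟩
  by_contra hlt
  push Not at hlt
  have hSeq : ((Finset.Ioc i1 (i1 + h) ∪ Finset.Ioc i2 (i2 + h)).image g) = (X ∪ Y)ᶜ :=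
    Finset.eq_of_subset_of_card_le hsub (by omega)
  have hmem : ∀ t : ℕ, (∀ s, (i1 < s ∧ s ≤ i1 + h) ∨ (i2 < s ∧ s ≤ i2 + h) → g s ≠ g t) → g t ∈ X ∨ g t ∈ Y := by
    intro t ht
    by_contra hc
    push Not at hc
    have h1 : g t ∈ (X ∪ Y)ᶜ := by
      rw [Finset.mem_compl, Finset.mem_union, not_or]
      exact hc
    rw [← hSeq, Finset.mem_image] at h1
    obtain ⟨s, hs, hst⟩ := h1
    simp only [Finset.mem_union, Finset.mem_Ioc] at hs
    exact ht s hs hst
  have e1 : j1 = i1 + h + 1 := by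
    by_contra hne
    have h1 := p6 (i1 + h + 1) (by omega) (by omega)
    rcases hmem (i1 + h + 1) (by
      intro s hs hst
      have := hginj s (i1 + h + 1) (by omega) (by omega) hst
      omega) with h2 | h2
    · exact h1.1 h2
    · exact h1.2 h2
  have e2 : j2 = i2 + h + 1 := by
    by_contra hne
    have h1 := q6 (i2 + h + 1) (by omega) (by omega)
    rcases hmem (i2 + h + 1) (by
      intro s hs hst
      have := hginj s (i2 + h + 1) (by omega) (by omega) hst
      omega) with h2 | h2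
    · exact h1.2 h2
    · exact h1.1 h2
  have hYall : ∀ c : ℕ, j1 + c ≤ i2 → g (j1 + c) ∈ Y := by
    intro c
    induction c with
    | zero => intro _; exact p5
    | succ c ih =>
      intro hc
      have h1 := ih (by omega)
      rcases hmem (j1 + (c + 1)) (by
        intro s hs hst
        have := hginj s (j1 + (c + 1)) (by omega) (by omega) hst
        omega) with h2 | h2
      · exact (hYX (j1 + c) (j1 + (c + 1)) (by omega) (by omega) h1 h2).elim
      · exact h2
  have hXall : ∀ c : ℕ, j2 + c ≤ 2 * N + i1 → g (j2 + c) ∈ X := by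
    intro c
    induction c with
    | zero => intro _; exact q5
    | succ c ih =>
      intro hc
      have h1 := ih (by omega)
      rcases hmem (j2 + (c + 1)) (by
        intro s hs hst
        have := hginj' s (j2 + (c + 1)) (by omega) (by omega) hst
        omega) with h2 | h2
      · exact h2
      · exact (hXY (j2 + c) (j2 + (c + 1)) (by omega) (by omega) h1 h2).elim
  obtain ⟨t, ht1, ht2, ht3, ht4⟩ : ∃ t : ℕ, j1 + N ≤ t ∧ t ≤ i2 + N ∧ j2 ≤ t ∧ t ≤ 2 * N + i1 := by
    refine ⟨max (j1 + N) j2, le_max_left _ _, ?_, le_max_right _ _, ?_⟩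
    · exact max_le (by omega) (by omega)
    · exact max_le (by omega) (by omega)
  have hy : g (t - N) ∈ Y := by
    have := hYall (t - N - j1) (by omega)
    have e : j1 + (t - N - j1) = t - N := by omega
    rwa [e] at this
  have hx : g t ∈ X := by
    have := hXall (t - j2) (by omega)
    have e : j2 + (t - j2) = t := by omega
    rwa [e] at this
  refine hno _ hx _ hy ?_
  rw [SimpleGraph.fromRel_adj]
  refine ⟨fun he => hdisj _ hx (he ▸ hy), Or.inr (Or.inr ?_)⟩
  show ((a.1 + (t - N)) % (2 * N) + N) % (2 * N) = (a.1 + t) % (2 * N)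
  rw [Nat.mod_add_mod]
  congr 1
  omega
end

section
open Finset
theorem circ_mod_cases2 (a n : ℕ) (h : a < 2 * n) : (a < n ∧ a % n = a) ∨ (n ≤ a ∧ a % n = a - n) := by
  rcases lt_or_ge a n with h1 | h1
  · exact Or.inl ⟨h1, Nat.mod_eq_of_lt h1⟩
  · right
    refine ⟨h1, ?_⟩
    rw [Nat.mod_eq_sub_mod h1, Nat.mod_eq_of_lt (by omega)]

open Classical in
theorem circ_odd_deg (N h : ℕ) (hN : h + 1 ≤ N) (v : Fin (2 * N)) :
    (univ.filter (fun u => (SimpleGraph.fromRel (fun i j : Fin (2 * N) =>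
      (∃ d : ℕ, 1 ≤ d ∧ d ≤ h ∧ (i.1 + d) % (2 * N) = j.1) ∨ (i.1 + N) % (2 * N) = j.1)).Adj v u)).card ≤ 2 * h + 1 := by
  have hpos : 0 < 2 * N := by omega
  have hv := v.2
  let f1 : ℕ → Fin (2 * N) := fun d => ⟨(v.1 + d) % (2 * N), Nat.mod_lt _ hpos⟩
  let f2 : ℕ → Fin (2 * N) := fun d => ⟨(v.1 + 2 * N - d) % (2 * N), Nat.mod_lt _ hpos⟩
  let f3 : Fin (2 * N) := ⟨(v.1 + N) % (2 * N), Nat.mod_lt _ hpos⟩
  have hsub : (univ.filter (fun u => (SimpleGraph.fromRel (fun i j : Fin (2 * N) =>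
      (∃ d : ℕ, 1 ≤ d ∧ d ≤ h ∧ (i.1 + d) % (2 * N) = j.1) ∨ (i.1 + N) % (2 * N) = j.1)).Adj v u)) ⊆
      ((Finset.Icc 1 h).image f1 ∪ (Finset.Icc 1 h).image f2) ∪ {f3} := by
    intro u hu
    rw [Finset.mem_filter, SimpleGraph.fromRel_adj] at hu
    have hu2 := u.2
    rcases hu.2.2 with (⟨d, hd1, hd2, hd⟩ | hd) | (⟨d, hd1, hd2, hd⟩ | hd)
    · refine Finset.mem_union_left _ (Finset.mem_union_left _ (Finset.mem_image.2
        ⟨d, Finset.mem_Icc.2 ⟨hd1, hd2⟩, Fin.ext hd⟩))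
    · exact Finset.mem_union_right _ (Finset.mem_singleton.2 (Fin.ext hd.symm))
    · refine Finset.mem_union_left _ (Finset.mem_union_right _ (Finset.mem_image.2
        ⟨d, Finset.mem_Icc.2 ⟨hd1, hd2⟩, Fin.ext ?_⟩))
      show (v.1 + 2 * N - d) % (2 * N) = u.1
      rcases circ_mod_cases2 (u.1 + d) (2 * N) (by omega) with ⟨h1, h2⟩ | ⟨h1, h2⟩ <;>
      rcases circ_mod_cases2 (v.1 + 2 * N - d) (2 * N) (by omega) with ⟨h3, h4⟩ | ⟨h3, h4⟩ <;>
      rw [h4] <;> rw [h2] at hd <;> omega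
    · refine Finset.mem_union_right _ (Finset.mem_singleton.2 (Fin.ext ?_))
      show u.1 = (v.1 + N) % (2 * N)
      rcases circ_mod_cases2 (u.1 + N) (2 * N) (by omega) with ⟨h1, h2⟩ | ⟨h1, h2⟩ <;>
      rcases circ_mod_cases2 (v.1 + N) (2 * N) (by omega) with ⟨h3, h4⟩ | ⟨h3, h4⟩ <;>
      rw [h4] <;> rw [h2] at hd <;> omega
  have h1 : ((Finset.Icc 1 h).image f1).card ≤ h := by
    refine Finset.card_image_le.trans ?_
    simp
  have h2 : ((Finset.Icc 1 h).image f2).card ≤ h := by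
    refine Finset.card_image_le.trans ?_
    simp
  have h3 := Finset.card_le_card hsub
  have h4 := Finset.card_union_le ((Finset.Icc 1 h).image f1 ∪ (Finset.Icc 1 h).image f2) {f3}
  have h5 := Finset.card_union_le ((Finset.Icc 1 h).image f1) ((Finset.Icc 1 h).image f2)
  rw [Finset.card_singleton] at h4
  omega
end

section
open Finset
/-- the complete graph minus a maximum matching -/
theorem top_matching (n : ℕ) (hn : 2 ≤ n) :
    ∃ F : Finset (Sym2 (Fin n)), (F : Set (Sym2 (Fin n))) ⊆ (⊤ : SimpleGraph (Fin n)).edgeSet ∧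
      CutConn ((⊤ : SimpleGraph (Fin n)).deleteEdges (F : Set (Sym2 (Fin n)))) (n - 2) ∧ F.card = n / 2 := by
  classical
  let f : Fin (n / 2) → Sym2 (Fin n) := fun i =>
    s((⟨2 * i.val, by have := i.isLt; omega⟩ : Fin n), (⟨2 * i.val + 1, by have := i.isLt; omega⟩ : Fin n))
  have hmem : ∀ a b : Fin n, s(a, b) ∈ univ.image f →
      ∃ i : ℕ, (a.val = 2 * i ∧ b.val = 2 * i + 1) ∨ (a.val = 2 * i + 1 ∧ b.val = 2 * i) := by
    intro a b h
    rw [mem_image] at h
    obtain ⟨i, -, hi⟩ := h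
    rw [Sym2.eq_iff] at hi
    refine ⟨i.val, ?_⟩
    rcases hi with ⟨h1, h2⟩ | ⟨h1, h2⟩
    · left
      exact ⟨by rw [← h1], by rw [← h2]⟩
    · right
      exact ⟨by rw [← h2], by rw [← h1]⟩
  have hinj : Function.Injective f := by
    intro i j hij
    rw [Sym2.eq_iff] at hij
    apply Fin.ext
    rcases hij with ⟨h1, h2⟩ | ⟨h1, h2⟩
    · have := congrArg Fin.val h1
      simp only at this
      omega
    · have := congrArg Fin.val h1
      simp only at this
      omega
  refine ⟨univ.image f, ?_, ?_, ?_⟩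
  · intro e he
    rw [mem_coe, mem_image] at he
    obtain ⟨i, -, rfl⟩ := he
    rw [SimpleGraph.mem_edgeSet, SimpleGraph.top_adj]
    intro h
    have := congrArg Fin.val h
    simp only at this
    omega
  · intro X Y hX hY hd hadj
    obtain ⟨x0, hx0⟩ := hX
    obtain ⟨y0, hy0⟩ := hY
    have key : ∀ x ∈ X, ∀ y ∈ Y, ∃ i : ℕ, (x.val = 2 * i ∧ y.val = 2 * i + 1) ∨ (x.val = 2 * i + 1 ∧ y.val = 2 * i) := by
      intro x hx y hy
      apply hmem
      by_contra hc
      apply hadj x hx y hy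
      rw [SimpleGraph.deleteEdges_adj]
      refine ⟨?_, fun h => hc (mem_coe.mp h)⟩
      rw [SimpleGraph.top_adj]
      rintro rfl
      exact (Finset.disjoint_left.mp hd) hx hy
    have hX1 : X.card ≤ 1 := by
      rw [card_le_one]
      intro a ha b hb
      obtain ⟨i, hi⟩ := key a ha y0 hy0
      obtain ⟨j, hj⟩ := key b hb y0 hy0
      apply Fin.ext
      omega
    have hY1 : Y.card ≤ 1 := by
      rw [card_le_one]
      intro a ha b hb
      obtain ⟨i, hi⟩ := key x0 hx0 a ha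
      obtain ⟨j, hj⟩ := key x0 hx0 b hb
      apply Fin.ext
      omega
    have hu : (X ∪ Y).card ≤ X.card + Y.card := card_union_le X Y
    rw [card_compl, Fintype.card_fin]
    omega
  · rw [card_image_of_injective _ hinj, card_univ, Fintype.card_fin]
end

end Pool.Agent.H383Mader
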