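import Mathlib
import Pool.Agent.H383Mader.Defs
import Pool.Agent.H383Mader.Lemmas

open Finset

namespace Pool.Agent.H383Mader

open Classical in
theorem no_core {n : ℕ} (H : SimpleGraph (Fin n)) (κ : ℕ) (hκ : 1 ≤ κ) (hn : κ + 1 ≤ n)
    (hc : CutConn H κ) (hcrit : ∀ x y, H.Adj x y → ¬ CutConn (H.deleteEdges {s(x, y)}) κ)
    (D : Finset (Fin n)) (hD : D.Nonempty)
    (hdeg : ∀ v ∈ D, κ < (univ.filter (fun u => H.Adj v u)).card) :
    ∃ v ∈ D, (D.filter (fun u => H.Adj v u)).card ≤ 1 := by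
  by_contra hcon
  push Not at hcon
  have key : ∀ m : ℕ, ∀ x y, x ∈ D → y ∈ D → H.Adj x y → ∀ X S Y : Finset (Fin n),
      x ∈ X → y ∈ Y → Disjoint X S → Disjoint X Y → Disjoint S Y → X ∪ S ∪ Y = univ →
      S.card + 1 = κ → (∀ a ∈ X, ∀ b ∈ Y, H.Adj a b → a = x ∧ b = y) → X.card ≤ m → False := by
    intro m
    induction m with
    | zero =>
      intro x y hx hy hxy X S Y h1 h2 h3 h4 h5 h6 h7 h8 h9
      have : 0 < X.card := card_pos.mpr ⟨x, h1⟩
      omega
    | succ m ih =>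
      intro x y hx hy hxy X S Y h1 h2 h3 h4 h5 h6 h7 h8 h9
      have h2c := hcon x hx
      obtain ⟨w, hw, hwy⟩ := exists_mem_ne h2c y
      rw [mem_filter] at hw
      obtain ⟨hwD, hxw⟩ := hw
      obtain ⟨X', S', W', g1, g2, g3, g4, g5, g6, g7, g8⟩ :=
        crit_sep H κ hκ hn hc x w hxw (hcrit x w hxw)
      have hlt := core H κ hκ hc x y w (Ne.symm hwy) hxy hxw (hdeg x hx) X S Y X' S' W'
        h1 h2 h3 h4 h5 h6 h7 h8 g1 g2 g3 g4 g5 g6 g7 g8
      refine ih w x hwD hx hxw.symm W' S' X' g2 g1 g5.symm g4.symm g3.symm ?_ g7 ?_ (by omega)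
      · rw [← g6]
        ext v
        simp only [mem_union]
        tauto
      · intro a ha b hb hab
        have := g8 b hb a ha hab.symm
        exact ⟨this.2, this.1⟩
  obtain ⟨v, hv⟩ := hD
  have h2c := hcon v hv
  obtain ⟨u, hu⟩ : (D.filter (fun u => H.Adj v u)).Nonempty := card_pos.mp (by omega)
  rw [mem_filter] at hu
  obtain ⟨X, S, Y, g1, g2, g3, g4, g5, g6, g7, g8⟩ :=
    crit_sep H κ hκ hn hc v u hu.2 (hcrit v u hu.2)
  exact key X.card v u hv hu.1 hu.2 X S Y g1 g2 g3 g4 g5 g6 g7 g8 le_rfl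

theorem KConn.mono {n : ℕ} {G : SimpleGraph (Fin n)} {k j : ℕ} (h : KConn G k) (hj : j ≤ k) :
    KConn G j := ⟨le_trans (by omega) h.1, fun S hS => h.2 S (lt_of_lt_of_le hS hj)⟩

open Classical in
/-- number of neighbours -/
noncomputable def dg {n : ℕ} (H : SimpleGraph (Fin n)) (v : Fin n) : ℕ :=
  (univ.filter (fun u => H.Adj v u)).card

theorem dg_eq {n : ℕ} (H : SimpleGraph (Fin n)) (v : Fin n) [DecidablePred (fun u => H.Adj v u)] :
    (univ.filter (fun u => H.Adj v u)).card = dg H v := by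
  unfold dg
  congr

theorem dg_mono {n : ℕ} {H G : SimpleGraph (Fin n)} (h : H ≤ G) (v : Fin n) : dg H v ≤ dg G v := by
  classical
  unfold dg
  apply card_le_card
  intro u hu
  rw [mem_filter] at hu ⊢
  exact ⟨hu.1, h hu.2⟩

theorem deg_ge' {n : ℕ} (G : SimpleGraph (Fin n)) (k : ℕ) (hn : k + 1 ≤ n) (hc : CutConn G k)
    (v : Fin n) : k ≤ dg G v := by
  classical
  have := deg_ge G k hn hc v
  simpa only [dg_eq] using this

theorem handshake' {n : ℕ} (G : SimpleGraph (Fin n)) (F : Finset (Sym2 (Fin n)))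
    (hF : (F : Set (Sym2 (Fin n))) ⊆ G.edgeSet) :
    ∑ v, dg G v = ∑ v, dg (G.deleteEdges (F : Set (Sym2 (Fin n)))) v + 2 * F.card := by
  classical
  have := handshake G F hF
  simpa only [dg_eq] using this

open Classical in
theorem exists_removal {n k : ℕ} (hk : 2 ≤ k) (G : SimpleGraph (Fin n)) (hG : KConn G k) :
    ∃ F : Finset (Sym2 (Fin n)), (F : Set (Sym2 (Fin n))) ⊆ G.edgeSet ∧
      KConn (G.deleteEdges (F : Set (Sym2 (Fin n)))) (k - 1) ∧
      (k - 2) * n + 2 ≤ 2 * (2 * k - 3) * F.card := by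
  obtain ⟨κ, rfl⟩ : ∃ κ, k = κ + 1 := ⟨k - 1, by omega⟩
  have hκ : 1 ≤ κ := by omega
  simp only [Nat.add_sub_cancel]
  set 𝓕 : Finset (Finset (Sym2 (Fin n))) := univ.filter (fun F =>
    (F : Set (Sym2 (Fin n))) ⊆ G.edgeSet ∧ KConn (G.deleteEdges (F : Set (Sym2 (Fin n)))) κ) with h𝓕
  have hne : 𝓕.Nonempty := by
    refine ⟨∅, ?_⟩
    rw [h𝓕, mem_filter]
    refine ⟨mem_univ _, by simp, ?_⟩
    have : G.deleteEdges ((∅ : Finset (Sym2 (Fin n))) : Set (Sym2 (Fin n))) = G := by simp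
    rw [this]
    exact hG.mono (by omega)
  obtain ⟨F, hF, hmax⟩ := exists_max_image 𝓕 (fun F => F.card) hne
  rw [h𝓕, mem_filter] at hF
  obtain ⟨-, hFG, hFK⟩ := hF
  refine ⟨F, hFG, hFK, ?_⟩
  set H := G.deleteEdges (F : Set (Sym2 (Fin n))) with hH
  have hn : κ + 1 ≤ n := hFK.1
  have hc : CutConn H κ := ((kconn_iff H κ).mp hFK).2
  have hcrit : ∀ x y, H.Adj x y → ¬ CutConn (H.deleteEdges {s(x, y)}) κ := by
    intro x y hxy hcut
    have hK : KConn (H.deleteEdges {s(x, y)}) κ := (kconn_iff _ κ).mpr ⟨hn, hcut⟩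
    have hxyG : G.Adj x y ∧ s(x, y) ∉ (F : Set (Sym2 (Fin n))) := by
      rw [hH, SimpleGraph.deleteEdges_adj] at hxy
      exact hxy
    have hmem : insert s(x, y) F ∈ 𝓕 := by
      rw [h𝓕, mem_filter]
      refine ⟨mem_univ _, ?_, ?_⟩
      · rw [coe_insert]
        intro e he
        rcases he with he | he
        · rw [he]; exact hxyG.1
        · exact hFG he
      · have : G.deleteEdges ((insert s(x, y) F : Finset (Sym2 (Fin n))) : Set (Sym2 (Fin n)))
            = H.deleteEdges {s(x, y)} := by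
          rw [hH, SimpleGraph.deleteEdges_deleteEdges, coe_insert, Set.union_comm, Set.singleton_union]
        rw [this]
        exact hK
    have := hmax _ hmem
    have hnot : s(x, y) ∉ F := by exact_mod_cast hxyG.2
    rw [card_insert_of_notMem hnot] at this
    omega
  have hlow0 := count_low H κ hκ hn (deg_ge H κ hn hc) (fun D hD hdeg => peel H D hD (fun D' hD' hne' =>
    no_core H κ hκ hn hc hcrit D' hne' (fun v hv => hdeg v (hD' hv))))
  have hlow : (κ - 1) * n + 2 ≤ (2 * κ - 1) * (univ.filter (fun v : Fin n => dg H v = κ)).card := by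
    refine le_trans hlow0 (Nat.mul_le_mul_left _ (card_le_card ?_))
    intro v hv
    rw [mem_filter] at hv ⊢
    refine ⟨mem_univ _, ?_⟩
    have hv2 := hv.2
    rw [← hv2]
    unfold dg
    congr
  set A := univ.filter (fun v : Fin n => dg H v = κ) with hA
  have hhs := handshake' G F hFG
  rw [← hH] at hhs
  have hdegG := deg_ge' G (κ + 1) hG.1 ((kconn_iff G (κ + 1)).mp hG).2
  have hHG : ∀ v, dg H v ≤ dg G v := fun v => dg_mono (SimpleGraph.deleteEdges_le _) v
  have hAF : A.card ≤ 2 * F.card := by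
    have h1 : ∑ v, dg H v + A.card
        ≤ ∑ v, dg G v := by
      rw [hA, card_filter, ← sum_add_distrib]
      apply sum_le_sum
      intro v _
      split_ifs with hv
      · have := hdegG v; omega
      · have := hHG v; omega
    omega
  calc (κ + 1 - 2) * n + 2 = (κ - 1) * n + 2 := by congr 2
    _ ≤ (2 * κ - 1) * A.card := hlow
    _ ≤ (2 * κ - 1) * (2 * F.card) := Nat.mul_le_mul_left _ hAF
    _ = 2 * (2 * (κ + 1) - 3) * F.card := by
        have : 2 * (κ + 1) - 3 = 2 * κ - 1 := by omega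
        rw [this]; ring

theorem bdd {n : ℕ} (G : SimpleGraph (Fin n)) (k : ℕ) :
    BddAbove {m : ℕ | ∃ F : Finset (Sym2 (Fin n)), (F : Set (Sym2 (Fin n))) ⊆ G.edgeSet ∧
    KConn (G.deleteEdges (F : Set (Sym2 (Fin n)))) (k - 1) ∧ F.card = m} := by
  refine ⟨Fintype.card (Sym2 (Fin n)), ?_⟩
  rintro m ⟨F, -, -, rfl⟩
  exact card_le_univ F

theorem removable_ge {n k : ℕ} (hk : 2 ≤ k) (G : SimpleGraph (Fin n)) (hG : KConn G k) :
    (k - 2) * n + 2 ≤ 2 * (2 * k - 3) * removable G k := by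
  obtain ⟨F, h1, h2, h3⟩ := exists_removal hk G hG
  refine le_trans h3 (Nat.mul_le_mul_left _ ?_)
  exact le_csSup (bdd G k) ⟨F, h1, h2, rfl⟩

theorem removable_le {n k b : ℕ} (G : SimpleGraph (Fin n)) (hG : KConn G k)
    (h : ∀ F : Finset (Sym2 (Fin n)), (F : Set (Sym2 (Fin n))) ⊆ G.edgeSet →
      KConn (G.deleteEdges (F : Set (Sym2 (Fin n)))) (k - 1) → F.card ≤ b) :
    removable G k ≤ b := by
  apply csSup_le
  · refine ⟨0, ∅, by simp, ?_, rfl⟩
    have : G.deleteEdges ((∅ : Finset (Sym2 (Fin n))) : Set (Sym2 (Fin n))) = G := by simp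
    rw [this]
    exact hG.mono (by omega)
  · rintro m ⟨F, h1, h2, rfl⟩
    exact h F h1 h2

theorem top_kconn {n k : ℕ} (h : k + 1 ≤ n) : KConn (⊤ : SimpleGraph (Fin n)) k := by
  rw [kconn_iff]
  refine ⟨h, ?_⟩
  rintro X Y ⟨x, hx⟩ ⟨y, hy⟩ hd hno
  exfalso
  refine hno x hx y hy ?_
  rw [SimpleGraph.top_adj]
  rintro rfl
  exact (disjoint_left.mp hd) hx hy

theorem fMin_spec {n k : ℕ} (h : k + 1 ≤ n) :
    ∃ G : SimpleGraph (Fin n), KConn G k ∧ removable G k = fMin n k := by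
  have hne : {m : ℕ | ∃ G : SimpleGraph (Fin n), KConn G k ∧ removable G k = m}.Nonempty :=
    ⟨_, ⊤, top_kconn h, rfl⟩
  exact Nat.sInf_mem hne

theorem fMin_le {n k : ℕ} {G : SimpleGraph (Fin n)} (hG : KConn G k) : fMin n k ≤ removable G k :=
  Nat.sInf_le ⟨G, hG, rfl⟩

/-- lower bound -/
theorem fMin_ge {n k : ℕ} (hk : 2 ≤ k) (h : k + 1 ≤ n) :
    (k - 2) * n + 2 ≤ 2 * (2 * k - 3) * fMin n k := by
  obtain ⟨G, hG, he⟩ := fMin_spec h
  rw [← he]
  exact removable_ge hk G hG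

/-- upper bound from complete bipartite graphs -/
theorem fMin_le_bip {n k : ℕ} (hk : 1 ≤ k) (h : 2 * k ≤ n) : fMin n k ≤ n - k := by
  classical
  have hG := bip_kconn n k hk h
  refine le_trans (fMin_le hG) (removable_le _ hG ?_)
  intro F hF hK
  have hc := ((kconn_iff _ (k - 1)).mp hK)
  refine bip_removal n k hk h F hF (fun v => ?_)
  have := deg_ge' _ (k - 1) hc.1 hc.2 v
  rwa [dg_eq]

/-- upper bound from circulant graphs -/
theorem fMin_le_circ {n h : ℕ} (hh : 1 ≤ h) (hn : 2 * h + 1 ≤ n) : 2 * fMin n (2 * h) ≤ n := by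
  classical
  have hG : KConn (SimpleGraph.fromRel (fun i j : Fin n => ∃ d : ℕ, 1 ≤ d ∧ d ≤ h ∧ (i.1 + d) % n = j.1)) (2 * h) :=
    (kconn_iff _ _).mpr ⟨hn, circ_kconn n h hh hn⟩
  have hle : fMin n (2 * h) ≤ n / 2 := by
    refine le_trans (fMin_le hG) (removable_le _ hG ?_)
    intro F hF hK
    have hc := ((kconn_iff _ (2 * h - 1)).mp hK)
    have hd := deg_ge' _ (2 * h - 1) hc.1 hc.2
    have hhs := handshake' _ F hF
    have h1 := sum_le_sum (s := univ) (fun (v : Fin n) (_ : v ∈ univ) => circ_deg n h hn v)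
    simp only [dg_eq] at h1
    have h2 := sum_le_sum (s := univ) (fun (v : Fin n) (_ : v ∈ univ) => hd v)
    rw [sum_const, card_univ, Fintype.card_fin, smul_eq_mul] at h1 h2
    obtain ⟨j, rfl⟩ : ∃ j, h = j + 1 := ⟨h - 1, by omega⟩
    have e1 : 2 * (j + 1) - 1 = 2 * j + 1 := by omega
    rw [e1] at h2
    have h3 : n * (2 * j + 1) + 2 * F.card ≤ n * (2 * (j + 1)) := by omega
    have h4 : 2 * F.card ≤ n := by nlinarith
    omega
  omega

/-- exact value for k = 2 -/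
theorem fMin_two {n : ℕ} (hn : 3 ≤ n) : fMin n 2 = 1 := by
  classical
  apply le_antisymm
  · have hG : KConn (SimpleGraph.fromRel (fun i j : Fin n => ∃ d : ℕ, 1 ≤ d ∧ d ≤ 1 ∧ (i.1 + d) % n = j.1)) (2 * 1) :=
      (kconn_iff _ _).mpr ⟨hn, circ_kconn n 1 le_rfl hn⟩
    refine le_trans (fMin_le hG) (removable_le _ hG ?_)
    intro F hF hK
    have hcon : ((SimpleGraph.fromRel (fun i j : Fin n => ∃ d : ℕ, 1 ≤ d ∧ d ≤ 1 ∧ (i.1 + d) % n = j.1)).deleteEdges (F : Set (Sym2 (Fin n)))).Connected := by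
      have h0 := hK.2 ∅ (by simp)
      have huniv : {v : Fin n | v ∉ (∅ : Finset (Fin n))} = Set.univ := by ext v; simp
      rw [huniv] at h0
      exact (SimpleGraph.induceUnivIso _).connected_iff.mp h0
    have hcard := hcon.card_vert_le_card_edgeSet_add_one
    rw [Nat.card_eq_fintype_card, Fintype.card_fin] at hcard
    have hhs := handshake' _ F hF
    have h1 := sum_le_sum (s := univ) (fun (v : Fin n) (_ : v ∈ univ) => circ_deg n 1 hn v)
    simp only [dg_eq] at h1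
    rw [sum_const, card_univ, Fintype.card_fin, smul_eq_mul] at h1
    have h2 : ∑ v : Fin n, dg ((SimpleGraph.fromRel
      (fun i j : Fin n => ∃ d : ℕ, 1 ≤ d ∧ d ≤ 1 ∧ (i.1 + d) % n = j.1)).deleteEdges (F : Set (Sym2 (Fin n)))) v
      = 2 * Nat.card ((SimpleGraph.fromRel (fun i j : Fin n => ∃ d : ℕ, 1 ≤ d ∧ d ≤ 1 ∧ (i.1 + d) % n = j.1)).deleteEdges (F : Set (Sym2 (Fin n)))).edgeSet := by
      have := SimpleGraph.sum_degrees_eq_twice_card_edges ((SimpleGraph.fromRel (fun i j : Fin n => ∃ d : ℕ, 1 ≤ d ∧ d ≤ 1 ∧ (i.1 + d) % n = j.1)).deleteEdges (F : Set (Sym2 (Fin n))))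
      rw [Nat.card_eq_fintype_card, ← SimpleGraph.edgeFinset_card, ← this]
      apply sum_congr rfl
      intro v _
      rw [← SimpleGraph.card_neighborFinset_eq_degree, SimpleGraph.neighborFinset_eq_filter, dg_eq]
    omega
  · have := fMin_ge (n := n) (k := 2) le_rfl hn
    omega

end Pool.Agent.H383Mader
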