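import Mathlib
import Pool.Agent.H383Mader.Main
import Pool.Agent.H383Mader.Lemmas2

open Finset

namespace Pool.Agent.H383Mader

/-- any `k`-connected graph with all degrees at most `k` has `2 r(G) ≤ n` -/
theorem two_removable_le {n k : ℕ} (hk : 1 ≤ k) (G : SimpleGraph (Fin n)) (hG : KConn G k)
    (hdeg : ∀ v, dg G v ≤ k) : 2 * removable G k ≤ n := by
  classical
  have hle : removable G k ≤ n / 2 := by
    refine removable_le _ hG ?_
    intro F hF hK
    have hc := ((kconn_iff _ (k - 1)).mp hK)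
    have hd := deg_ge' _ (k - 1) hc.1 hc.2
    have hhs := handshake' _ F hF
    have h1 := sum_le_sum (s := univ) (fun (v : Fin n) (_ : v ∈ univ) => hdeg v)
    have h2 := sum_le_sum (s := univ) (fun (v : Fin n) (_ : v ∈ univ) => hd v)
    rw [sum_const, card_univ, Fintype.card_fin, smul_eq_mul] at h1 h2
    obtain ⟨j, rfl⟩ : ∃ j, k = j + 1 := ⟨k - 1, by omega⟩
    have e1 : j + 1 - 1 = j := by omega
    rw [e1] at h2
    have h3 : n * j + 2 * F.card ≤ n * (j + 1) := by omega
    have h4 : 2 * F.card ≤ n := by nlinarith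
    omega
  omega

theorem removable_le_of {n k b : ℕ} (G : SimpleGraph (Fin n)) (F : Finset (Sym2 (Fin n)))
    (hF : (F : Set (Sym2 (Fin n))) ⊆ G.edgeSet)
    (hK : KConn (G.deleteEdges (F : Set (Sym2 (Fin n)))) (k - 1)) (hb : F.card = b) :
    b ≤ removable G k := le_csSup (bdd G k) ⟨F, hF, hK, hb⟩

/-- exact value for k = 1 -/
theorem fMin_one {n : ℕ} (hn : 2 ≤ n) : fMin n 1 = n - 1 := by
  classical
  apply le_antisymm
  · exact fMin_le_bip le_rfl (by omega)
  · obtain ⟨G, hG, he⟩ := fMin_spec (n := n) (k := 1) (by omega)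
    rw [← he]
    have hcon : G.Connected := by
      have h0 := hG.2 ∅ (by simp)
      have huniv : {v : Fin n | v ∉ (∅ : Finset (Fin n))} = Set.univ := by ext v; simp
      rw [huniv] at h0
      exact (SimpleGraph.induceUnivIso _).connected_iff.mp h0
    have hcard := hcon.card_vert_le_card_edgeSet_add_one
    rw [Nat.card_eq_fintype_card, Fintype.card_fin] at hcard
    have h3 : Nat.card G.edgeSet ≤ removable G 1 := by
      refine removable_le_of G G.edgeFinset ?_ ?_ ?_
      · intro e he'
        simpa using he'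
      · refine ⟨by omega, ?_⟩
        intro S hS
        simp at hS
      · rw [SimpleGraph.edgeFinset_card, Nat.card_eq_fintype_card]
    omega


/-- a `k`-connected graph on `k + 1` vertices is complete -/
theorem eq_top_of_kconn {k : ℕ} (G : SimpleGraph (Fin (k + 1))) (hG : KConn G k) : G = ⊤ := by
  classical
  ext u v
  rw [SimpleGraph.top_adj]
  refine ⟨fun h => h.ne, fun h => ?_⟩
  have hc := (kconn_iff G k).mp hG
  have hd := deg_ge' G k hc.1 hc.2 u
  have hsub : univ.filter (fun w => G.Adj u w) ⊆ univ.erase u := by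
    intro w hw
    rw [mem_filter] at hw
    exact mem_erase.2 ⟨fun h' => hw.2.ne h'.symm, mem_univ _⟩
  have hcard : (univ.erase u).card ≤ (univ.filter (fun w => G.Adj u w)).card := by
    rw [card_erase_of_mem (mem_univ _), card_univ, Fintype.card_fin, dg_eq]
    omega
  have heq := eq_of_subset_of_card_le hsub hcard
  have : v ∈ univ.filter (fun w => G.Adj u w) := by
    rw [heq]
    exact mem_erase.2 ⟨h.symm, mem_univ _⟩
  exact (mem_filter.mp this).2

theorem dg_top_le {k : ℕ} (v : Fin (k + 1)) : dg (⊤ : SimpleGraph (Fin (k + 1))) v ≤ k := by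
  classical
  have hsub : univ.filter (fun w => (⊤ : SimpleGraph (Fin (k + 1))).Adj v w) ⊆ univ.erase v := by
    intro w hw
    rw [mem_filter] at hw
    exact mem_erase.2 ⟨fun h' => hw.2.ne h'.symm, mem_univ _⟩
  have := card_le_card hsub
  rw [card_erase_of_mem (mem_univ _), card_univ, Fintype.card_fin, dg_eq] at this
  omega

/-- exact value for n = k + 1 -/
theorem fMin_succ {k : ℕ} (hk : 1 ≤ k) : fMin (k + 1) k = (k + 1) / 2 := by
  classical
  obtain ⟨G, hG, he⟩ := fMin_spec (n := k + 1) (k := k) le_rfl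
  have hGt := eq_top_of_kconn G hG
  subst hGt
  rw [← he]
  apply le_antisymm
  · have := two_removable_le hk _ hG dg_top_le
    omega
  · obtain ⟨F, h1, h2, h3⟩ := top_matching (k + 1) (by omega)
    refine removable_le_of _ F h1 ?_ h3
    rw [kconn_iff]
    refine ⟨by omega, ?_⟩
    have e : k + 1 - 2 = k - 1 := by omega
    rwa [e] at h2

/-- odd connectivity, even order -/
theorem fMin_le_odd {N h : ℕ} (hh : 1 ≤ h) (hN : h + 1 ≤ N) :
    fMin (2 * N) (2 * h + 1) ≤ N := by
  classical
  have hG := (kconn_iff _ _).mpr ⟨(by omega : 2 * h + 1 + 1 ≤ 2 * N), circ_odd_kconn N h hN hh⟩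
  have h1 := two_removable_le (by omega) _ hG (fun v => by
    have := circ_odd_deg N h hN v
    rwa [dg_eq] at this)
  have h2 := fMin_le hG
  omega

theorem fMin_le_half {n k : ℕ} (hk : 2 ≤ k) (h : k + 1 ≤ n) (he : Even (k * n)) : 2 * fMin n k ≤ n := by
  rcases Nat.even_or_odd' k with ⟨j, rfl | rfl⟩
  · exact fMin_le_circ (by omega) h
  · rw [Nat.even_mul] at he
    rcases he with he | he
    · exfalso
      rw [Nat.even_iff] at he
      omega
    · obtain ⟨N, rfl⟩ := he.two_dvd
      have := fMin_le_odd (N := N) (h := j) (by omega) (by omega)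
      omega

theorem removable_isGreatest {n k : ℕ} (G : SimpleGraph (Fin n)) (hG : KConn G k) :
    IsGreatest {m : ℕ | ∃ F : Finset (Sym2 (Fin n)), (F : Set (Sym2 (Fin n))) ⊆ G.edgeSet ∧
      KConn (G.deleteEdges (F : Set (Sym2 (Fin n)))) (k - 1) ∧ F.card = m} (removable G k) := by
  classical
  refine ⟨Nat.sSup_mem ⟨0, ∅, by simp, ?_, rfl⟩ (bdd G k), fun m hm => le_csSup (bdd G k) hm⟩
  have : G.deleteEdges ((∅ : Finset (Sym2 (Fin n))) : Set (Sym2 (Fin n))) = G := by simp
  rw [this]
  exact hG.mono (by omega)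

theorem fMin_isLeast {n k : ℕ} (h : k + 1 ≤ n) :
    IsLeast {m : ℕ | ∃ G : SimpleGraph (Fin n), KConn G k ∧ removable G k = m} (fMin n k) :=
  ⟨fMin_spec h, fun _ hm => Nat.sInf_le hm⟩

end Pool.Agent.H383Mader
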